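import Mathlib

set_option autoImplicit false
open Classical

namespace Pool.Agent.H.MP_640286_co

/-- child relation between vertex sets of monotone paths -/
def C {N : ℕ} (S T : Finset (Fin N)) : Prop :=
  ∃ m : Fin N, m ∉ S ∧ (∀ a ∈ S, a < m) ∧ T = insert m S

/-- the sets of monotone paths -/
noncomputable def PP {n : ℕ} (A : Fin (n+2) → Fin (n+2) → Prop) : Finset (Finset (Fin (n+2))) :=
  Finset.univ.filter (fun S : Finset (Fin (n+2)) => (0 : Fin (n+2)) ∈ S ∧
    ∀ a ∈ S, ∀ b ∈ S, a < b → (∀ c ∈ S, ¬ (a < c ∧ c < b)) → A a b)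

noncomputable def last {n : ℕ} (S : Finset (Fin (n+2))) : Fin (n+2) := S.sup id

theorem le_last {n : ℕ} {S : Finset (Fin (n+2))} {a : Fin (n+2)} (h : a ∈ S) : a ≤ last S :=
  Finset.le_sup (f := id) h

theorem last_mem {n : ℕ} {S : Finset (Fin (n+2))} (h : (0 : Fin (n+2)) ∈ S) : last S ∈ S := by
  obtain ⟨b, hb, e⟩ := Finset.exists_mem_eq_sup S ⟨0, h⟩ id
  unfold last; rw [e]; exact hb

theorem last_insert {n : ℕ} {S : Finset (Fin (n+2))} {m : Fin (n+2)} (h : ∀ a ∈ S, a < m) :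
    last (insert m S) = m := by
  apply le_antisymm
  · apply Finset.sup_le
    intro b hb
    rcases Finset.mem_insert.mp hb with e | e
    · exact le_of_eq e
    · exact (h b e).le
  · exact le_last (Finset.mem_insert_self _ _)

theorem last_ok {n : ℕ} (A : Fin (n+2) → Fin (n+2) → Prop) {S : Finset (Fin (n+2))}
    (hS : S ∈ PP A) : last S = 0 ∨ ∃ c, c < last S ∧ A c (last S) := by
  obtain ⟨h0, hA⟩ := (Finset.mem_filter.mp hS).2
  by_cases e : last S = 0
  · exact Or.inl e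
  right
  have h0' : (0 : Fin (n+2)) ∈ S.erase (last S) := Finset.mem_erase.mpr ⟨fun h => e h.symm, h0⟩
  have hm := last_mem h0'
  obtain ⟨hne, hin⟩ := Finset.mem_erase.mp hm
  have hlt : last (S.erase (last S)) < last S := lt_of_le_of_ne (le_last hin) hne
  refine ⟨_, hlt, hA _ hin _ (last_mem h0) hlt ?_⟩
  rintro c hc ⟨h1, h2⟩
  exact absurd (le_last (Finset.mem_erase.mpr ⟨h2.ne, hc⟩)) (not_le.mpr h1)

theorem child {n : ℕ} (A : Fin (n+2) → Fin (n+2) → Prop) {S T : Finset (Fin (n+2))}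
    (hS : S ∈ PP A) (hT : T ∈ PP A) (h : C S T) :
    last S < last T ∧ A (last S) (last T) ∧ T = insert (last T) S ∧ S = T.erase (last T) := by
  obtain ⟨m, hm, hlt, rfl⟩ := h
  have h0 := (Finset.mem_filter.mp hS).2.1
  have hA := (Finset.mem_filter.mp hT).2.2
  rw [last_insert hlt]
  refine ⟨hlt _ (last_mem h0), ?_, rfl, (Finset.erase_insert hm).symm⟩
  apply hA _ (Finset.mem_insert_of_mem (last_mem h0)) _ (Finset.mem_insert_self _ _)
    (hlt _ (last_mem h0))
  rintro c hc ⟨h1, h2⟩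
  rcases Finset.mem_insert.mp hc with e | e
  · exact absurd e h2.ne
  · exact absurd (le_last e) (not_le.mpr h1)

theorem quad_le {n : ℕ} (A : Fin (n+2) → Fin (n+2) → Prop) (l : ℝ) (hl : 0 < l)
    (g : Fin (n+2) → ℝ) (hg1 : ∀ b, b ≠ 0 → g b < 1) (hg0 : g 0 ≤ 1)
    (hs : ∀ a, (a = 0 ∨ ∃ c, c < a ∧ A c a) →
      ∑ b, (if a < b ∧ A a b then (l ^ 2)⁻¹ / (1 - g b) else 0) ≤ g a)
    (x : Finset (Fin (n+2)) → ℝ) :
    ∑ S ∈ PP A, ∑ T ∈ PP A, (if (C S T ∨ C T S) then x S * x T else 0)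
      ≤ l * ∑ S ∈ PP A, x S ^ 2 := by
  set al : Finset (Fin (n+2)) → ℝ := fun T => (l * (1 - g (last T)))⁻¹ with hal
  have hg : ∀ b, g b ≤ 1 := fun b => by
    by_cases e : b = 0
    · rw [e]; exact hg0
    · exact (hg1 b e).le
  have hpos : ∀ S ∈ PP A, ∀ T ∈ PP A, C S T → 0 < l * (1 - g (last T)) := by
    intro S hS T hT h
    have := (child A hS hT h).1
    have h2 : last T ≠ 0 := fun e => by rw [e] at this; exact absurd this (Fin.not_lt_zero _)
    exact mul_pos hl (sub_pos.mpr (hg1 _ h2))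
  set F : Finset (Fin (n+2)) → Finset (Fin (n+2)) → ℝ := fun S T =>
    if C S T then (al T * x S ^ 2 + l * (1 - g (last T)) * x T ^ 2) / 2 else 0 with hF
  have key : ∀ (c u v : ℝ), 0 < c → u * v ≤ (c⁻¹ * u ^ 2 + c * v ^ 2) / 2 ∧
      0 ≤ (c⁻¹ * u ^ 2 + c * v ^ 2) / 2 := by
    intro c u v hc
    refine ⟨?_, by positivity⟩
    have h1 : 0 ≤ c⁻¹ * (u - c * v) ^ 2 := by positivity
    have h2 : c⁻¹ * (u - c * v) ^ 2 = c⁻¹ * u ^ 2 - 2 * (u * v) + c * v ^ 2 := by
      field_simp; ring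
    linarith
  have h1 : ∀ S ∈ PP A, ∀ T ∈ PP A,
      (if (C S T ∨ C T S) then x S * x T else 0) ≤ F S T + F T S := by
    intro S hS T hT
    by_cases a : C S T <;> by_cases b : C T S <;> simp only [hF, hal, a, b, if_true, if_false,
      or_self, or_true, true_or, add_zero, zero_add, le_refl]
    · have := key _ (x S) (x T) (hpos S hS T hT a)
      have := key _ (x T) (x S) (hpos T hT S hS b)
      linarith
    · exact (key _ (x S) (x T) (hpos S hS T hT a)).1
    · rw [mul_comm]; exact (key _ (x T) (x S) (hpos T hT S hS b)).1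
  have h2 : ∑ S ∈ PP A, ∑ T ∈ PP A, (F S T + F T S)
      = ∑ S ∈ PP A, ((∑ T ∈ PP A, if C S T then al T else 0) * x S ^ 2
        + (∑ T ∈ PP A, if C T S then (1:ℝ) else 0) * (l * (1 - g (last S)) * x S ^ 2)) := by
    simp only [Finset.sum_add_distrib]
    rw [Finset.sum_comm (f := fun S T => F T S)]
    rw [Finset.sum_comm (f := fun T S => F T S)]
    have e1 : ∀ S T, F S T = (if C S T then al T else 0) * x S ^ 2 / 2
        + (if C S T then (1:ℝ) else 0) * (l * (1 - g (last T)) * x T ^ 2) / 2 := by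
      intro S T
      by_cases a : C S T <;> simp only [hF, a, if_true, if_false] <;> ring
    simp only [e1, Finset.sum_add_distrib, Finset.sum_mul, ← Finset.sum_div]
    rw [Finset.sum_comm (f := fun S T => (if C T S then al S else 0) * x T ^ 2)]
    ring
  have h3 : ∀ S ∈ PP A, (∑ T ∈ PP A, if C S T then al T else 0) ≤ l * g (last S) := by
    intro S hS
    have hb := hs (last S) (last_ok A hS)
    rw [← Finset.sum_filter] at hb ⊢
    have hinj : Set.InjOn last (↑((PP A).filter (fun T => C S T)) : Set (Finset (Fin (n+2)))) := by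
      intro T hT T' hT' e
      obtain ⟨p, q⟩ := Finset.mem_filter.mp (Finset.mem_coe.mp hT)
      obtain ⟨p', q'⟩ := Finset.mem_filter.mp (Finset.mem_coe.mp hT')
      rw [(child A hS p q).2.2.1, (child A hS p' q').2.2.1, e]
    have e := Finset.sum_image (f := fun b => (l * (1 - g b))⁻¹) hinj
    simp only [hal]
    rw [← e]
    calc _ ≤ ∑ b ∈ Finset.univ.filter (fun b => last S < b ∧ A (last S) b), (l * (1 - g b))⁻¹ := by
          apply Finset.sum_le_sum_of_subset_of_nonneg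
          · intro b hb
            obtain ⟨T, hT, rfl⟩ := Finset.mem_image.mp hb
            obtain ⟨p, q⟩ := Finset.mem_filter.mp hT
            exact Finset.mem_filter.mpr ⟨Finset.mem_univ _, (child A hS p q).1, (child A hS p q).2.1⟩
          · intro b _ _
            exact inv_nonneg.mpr (mul_nonneg hl.le (sub_nonneg.mpr (hg b)))
      _ = l * ∑ b ∈ Finset.univ.filter (fun b => last S < b ∧ A (last S) b),
            (l ^ 2)⁻¹ / (1 - g b) := by
          rw [Finset.mul_sum]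
          apply Finset.sum_congr rfl
          intro b _
          rw [mul_inv, div_eq_mul_inv, ← mul_assoc]
          congr 1
          field_simp
      _ ≤ _ := mul_le_mul_of_nonneg_left hb hl.le
  have h4 : ∀ S ∈ PP A, (∑ T ∈ PP A, if C T S then (1:ℝ) else 0) ≤ 1 := by
    intro S hS
    rw [← Finset.sum_filter, Finset.sum_const, nsmul_eq_mul, mul_one]
    have : ((PP A).filter (fun T => C T S)).card ≤ 1 := by
      apply Finset.card_le_one.mpr
      intro T hT T' hT'
      obtain ⟨p, q⟩ := Finset.mem_filter.mp hT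
      obtain ⟨p', q'⟩ := Finset.mem_filter.mp hT'
      rw [(child A p hS q).2.2.2, (child A p' hS q').2.2.2]
    exact_mod_cast this
  calc _ ≤ ∑ S ∈ PP A, ∑ T ∈ PP A, (F S T + F T S) :=
        Finset.sum_le_sum fun S hS => Finset.sum_le_sum fun T hT => h1 S hS T hT
    _ = _ := h2
    _ ≤ _ := by
        rw [Finset.mul_sum]
        apply Finset.sum_le_sum
        intro S hS
        have a1 := mul_le_mul_of_nonneg_right (h3 S hS) (sq_nonneg (x S))
        have a2 := mul_le_mul_of_nonneg_right (h4 S hS)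
          (mul_nonneg (mul_nonneg hl.le (sub_nonneg.mpr (hg (last S)))) (sq_nonneg (x S)))
        linarith

theorem quad_pos {n : ℕ} (A : Fin (n+2) → Fin (n+2) → Prop) (b : Fin (n+2)) (hb : b ≠ 0)
    (hA : A 0 b) : ∃ x : Finset (Fin (n+2)) → ℝ, ∑ S ∈ PP A, x S ^ 2 = 1 ∧
      0 < ∑ S ∈ PP A, ∑ T ∈ PP A, (if (C S T ∨ C T S) then x S * x T else 0) := by
  have hne : ({0} : Finset (Fin (n+2))) ≠ {b, 0} := by
    intro e
    have : b ∈ ({0} : Finset (Fin (n+2))) := by rw [e]; simp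
    exact hb (Finset.mem_singleton.mp this)
  have p1 : ({0} : Finset (Fin (n+2))) ∈ PP A := by
    refine Finset.mem_filter.mpr ⟨Finset.mem_univ _, by simp, ?_⟩
    intro a ha c hc h
    rw [Finset.mem_singleton.mp ha, Finset.mem_singleton.mp hc] at h
    exact absurd h (lt_irrefl _)
  have p2 : ({b, 0} : Finset (Fin (n+2))) ∈ PP A := by
    refine Finset.mem_filter.mpr ⟨Finset.mem_univ _, by simp, ?_⟩
    intro a ha c hc h _
    simp only [Finset.mem_insert, Finset.mem_singleton] at ha hc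
    rcases ha with rfl | rfl <;> rcases hc with rfl | rfl
    · exact absurd h (lt_irrefl _)
    · exact absurd h (Fin.not_lt_zero _)
    · exact hA
    · exact absurd h (lt_irrefl _)
  set x : Finset (Fin (n+2)) → ℝ := fun S =>
    if S = {0} then 3/5 else if S = {b, 0} then 4/5 else 0 with hx
  have x0 : ∀ S, 0 ≤ x S := fun S => by
    simp only [hx]; split_ifs <;> norm_num
  refine ⟨x, ?_, ?_⟩
  · rw [← Finset.sum_subset (s₁ := {{0}, {b, 0}})]
    · rw [Finset.sum_pair hne]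
      simp only [hx, if_true, if_neg hne.symm]
      norm_num
    · intro S hS
      simp only [Finset.mem_insert, Finset.mem_singleton] at hS
      rcases hS with rfl | rfl
      · exact p1
      · exact p2
    · intro S _ hS
      simp only [Finset.mem_insert, Finset.mem_singleton, not_or] at hS
      simp only [hx, if_neg hS.1, if_neg hS.2]
      norm_num
  · have nn : ∀ S T, 0 ≤ (if (C S T ∨ C T S) then x S * x T else 0) := fun S T => by
      split_ifs
      · exact mul_nonneg (x0 _) (x0 _)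
      · exact le_refl _
    apply Finset.sum_pos' (fun S _ => Finset.sum_nonneg fun T _ => nn S T)
    refine ⟨{0}, p1, Finset.sum_pos' (fun T _ => nn _ T) ⟨{b, 0}, p2, ?_⟩⟩
    have : C ({0} : Finset (Fin (n+2))) {b, 0} := by
      refine ⟨b, by simpa using hb, ?_, rfl⟩
      intro a ha
      rw [Finset.mem_singleton.mp ha]
      exact Fin.pos_iff_ne_zero.mpr hb
    rw [if_pos (Or.inl this)]
    simp only [hx, if_true, if_neg hne.symm]
    norm_num

theorem beta_le {n : ℕ} (A : Fin (n+2) → Fin (n+2) → Prop) (l : ℝ) (hl : 0 < l)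
    (g : Fin (n+2) → ℝ) (hg1 : ∀ b, b ≠ 0 → g b < 1) (hg0 : g 0 ≤ 1)
    (hs : ∀ a, (a = 0 ∨ ∃ c, c < a ∧ A c a) →
      ∑ b, (if a < b ∧ A a b then (l ^ 2)⁻¹ / (1 - g b) else 0) ≤ g a)
    (b : Fin (n+2)) (hb : b ≠ 0) (hA : A 0 b) :
    1 - ((sSup {q : ℝ | ∃ x : Finset (Fin (n+2)) → ℝ, (∑ S ∈ PP A, x S ^ 2) = 1 ∧
      q = ∑ S ∈ PP A, ∑ T ∈ PP A, (if (C S T ∨ C T S) then x S * x T else 0)}) ^ 2)⁻¹
      ≤ 1 - (l ^ 2)⁻¹ := by
  set Q := {q : ℝ | ∃ x : Finset (Fin (n+2)) → ℝ, (∑ S ∈ PP A, x S ^ 2) = 1 ∧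
      q = ∑ S ∈ PP A, ∑ T ∈ PP A, (if (C S T ∨ C T S) then x S * x T else 0)} with hQ
  have ub : ∀ q ∈ Q, q ≤ l := by
    rintro q ⟨x, h1, rfl⟩
    have := quad_le A l hl g hg1 hg0 hs x
    rwa [h1, mul_one] at this
  obtain ⟨x, h1, h2⟩ := quad_pos A b hb hA
  have p : 0 < sSup Q := lt_of_lt_of_le h2 (le_csSup ⟨l, ub⟩ ⟨x, h1, rfl⟩)
  have u : sSup Q ≤ l := Real.sSup_le ub hl.le
  have : (l ^ 2)⁻¹ ≤ (sSup Q ^ 2)⁻¹ :=
    inv_anti₀ (pow_pos p 2) (pow_le_pow_left₀ p.le u 2)
  linarith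

end Pool.Agent.H.MP_640286_co
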