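import Mathlib
import Pool.Agent.H.MP_640286_co.A

set_option autoImplicit false
open Classical

namespace Pool.Agent.H.MP_640286_co

def par (w : ℕ) : ℕ := (w - 5) / 10 + 1
def pt (u : ℕ) : ℕ := if u = 1 then 2 else if u = 2 then 1 else if u = 3 then 4 else 3
def adjH (u w : ℕ) : Bool :=
  (u == 0 && decide (1 ≤ w) && decide (w ≤ 4)) || (w == 0 && decide (1 ≤ u) && decide (u ≤ 4)) ||
  (decide (1 ≤ u) && decide (u ≤ 4) && w == pt u) ||
  (decide (5 ≤ w) && u == par w) || (decide (5 ≤ u) && w == par u)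

theorem adjH_symm : ∀ u w : Fin 45, adjH u w = true → adjH w u = true := by decide +kernel
theorem adjH_irr : ∀ u : Fin 45, ¬ adjH u u = true := by decide +kernel

def H : SimpleGraph (Fin (43+2)) where
  Adj u w := adjH u w = true
  symm := ⟨fun u w h => adjH_symm u w h⟩
  loopless := ⟨fun u h => adjH_irr u h⟩

theorem H_conn : H.Connected := by
  have h : ∀ w : Fin 45, w = 0 ∨ adjH (0 : Fin 45) w = true ∨
      ∃ u : Fin 45, adjH (0 : Fin 45) u = true ∧ adjH u w = true := by decide +kernel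
  have r : ∀ w : Fin 45, H.Reachable 0 w := by
    intro w
    rcases h w with e | e | ⟨u, e1, e2⟩
    · rw [e]
    · exact SimpleGraph.Adj.reachable (G := H) e
    · exact (SimpleGraph.Adj.reachable (G := H) e1).trans (SimpleGraph.Adj.reachable (G := H) e2)
  exact ⟨fun u v => (r u).symm.trans (r v)⟩

noncomputable def cc (s a b : Fin 45) : ℝ :=
  if s < a ∧ s < b then 0.4705 else if s < a ∨ s < b then 0.1674 else 0

noncomputable def O (s u v : Fin 45) : ℝ :=
  if v < u then (if s < u then 0.626 else 0.7443)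
  else (if s < u then 0.7934 else if u = 0 then 1 else 0.93)

theorem cc_comm (s a b : Fin 45) : cc s a b = cc s b a := by
  simp only [cc, and_comm, or_comm]

theorem cc_bd (s a b : Fin 45) : 0 ≤ cc s a b ∧ cc s a b ≤ 0.4705 := by
  unfold cc; split_ifs <;> norm_num

theorem O_bd (s u v : Fin 45) (h : u ≠ 0) : O s u v ≤ 0.93 := by
  unfold O; split_ifs <;> norm_num

theorem O_bd' (s u v : Fin 45) : O s u v ≤ 1 := by
  unfold O; split_ifs <;> norm_num

theorem dv (r c d : ℝ) (hr : r ≤ 0.0626) (hc : c < 1) (hd : 0.0626 ≤ d * (1 - c)) :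
    r / (1 - c) ≤ d := by
  rw [div_le_iff₀ (sub_pos.mpr hc)]; linarith

theorem tri1 (r : ℝ) (hr : r ≤ 0.0626) (s a b : Fin 45) (h : a ≠ b) :
    (if s < a then r / (1 - O s a b) else 0) + (if s < b then r / (1 - O s b a) else 0)
      ≤ cc s a b := by
  have d1 := dv r 0.626 0.1674 hr (by norm_num) (by norm_num)
  have d2 := dv r 0.7934 0.3031 hr (by norm_num) (by norm_num)
  unfold O cc
  split_ifs <;> first | linarith | (exfalso; omega)

theorem tri2 (r : ℝ) (hr : r ≤ 0.0626) (s u v : Fin 45) (h : u ≠ v) (h1 : s ≠ u) (h2 : s ≠ v)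
    (c L : ℝ) (hc : c ≤ 0.4705) (hL : L ≤ 10 * r)
    (hL' : u ≠ 0 → u < s → u < v → L ≤ 9 * r) :
    (if u < s then r / (1 - (cc s u v + c)) else 0) +
      ((if u < v then r / (1 - O s v u) else 0) + L) ≤ O s u v := by
  have d1 := dv r 0.626 0.1674 hr (by norm_num) (by norm_num)
  have d2 := dv r 0.7443 0.2449 hr (by norm_num) (by norm_num)
  have d3 := dv r (0 + c) 0.1183 hr (by linarith) (by linarith)
  have d4 := dv r (0.1674 + c) 0.1729 hr (by linarith) (by linarith)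
  unfold O cc
  by_cases e0 : u = 0
  · split_ifs <;> first | linarith | (exfalso; omega)
  · by_cases e1 : u < s
    · by_cases e2 : u < v
      · have := hL' e0 e1 e2
        split_ifs <;> first | linarith | (exfalso; omega)
      · split_ifs <;> first | linarith | (exfalso; omega)
    · split_ifs <;> first | linarith | (exfalso; omega)

def ptF (u : Fin 45) : Fin 45 := ⟨pt u % 45, Nat.mod_lt _ (by norm_num)⟩
def parF (u : Fin 45) : Fin 45 := ⟨par u % 45, Nat.mod_lt _ (by norm_num)⟩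
def Lv (u : Fin 45) : Finset (Fin 45) := Finset.univ.filter (fun w => 5 ≤ w.val ∧ parF w = u)

noncomputable def GG (σ : Fin 45 → Fin 45) (w : Fin 45) : ℝ :=
  if w = 0 then cc (σ 0) (σ 1) (σ 2) + cc (σ 0) (σ 3) (σ 4)
  else if w.val ≤ 4 then O (σ 0) (σ w) (σ (ptF w)) else if σ w = 0 then 1 else 0

theorem GG_lt (σ : Fin 45 → Fin 45) (w : Fin 45) (h : σ w ≠ 0) : GG σ w < 1 := by
  unfold GG
  have := cc_bd (σ 0) (σ 1) (σ 2)
  have := cc_bd (σ 0) (σ 3) (σ 4)
  have := O_bd (σ 0) (σ w) (σ (ptF w)) h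
  split_ifs <;> linarith

theorem GG_le (σ : Fin 45 → Fin 45) (w : Fin 45) : GG σ w ≤ 1 := by
  unfold GG
  have := cc_bd (σ 0) (σ 1) (σ 2)
  have := cc_bd (σ 0) (σ 3) (σ 4)
  have := O_bd' (σ 0) (σ w) (σ (ptF w))
  split_ifs <;> linarith

theorem nb0 : Finset.univ.filter (fun w : Fin 45 => adjH (0 : Fin 45) w = true) = {1, 2, 3, 4} := by
  decide +kernel

theorem nb1 : ∀ u : Fin 45, u ≠ 0 → u.val ≤ 4 →
    Finset.univ.filter (fun w : Fin 45 => adjH u w = true) = insert 0 (insert (ptF u) (Lv u)) ∧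
    (0 : Fin 45) ∉ insert (ptF u) (Lv u) ∧ ptF u ∉ Lv u ∧ (Lv u).card = 10 ∧
    ptF u ≠ 0 ∧ (ptF u).val ≤ 4 ∧ ptF (ptF u) = u ∧ u ≠ ptF u ∧
    (∀ w : Fin 45, adjH w u = true → w = 0 ∨ w = ptF u ∨ w ∈ Lv u) := by
  decide +kernel

theorem nb2 : ∀ u : Fin 45, ¬ u.val ≤ 4 →
    Finset.univ.filter (fun w : Fin 45 => adjH u w = true) = {parF u} ∧
    parF u ≠ 0 ∧ (parF u).val ≤ 4 ∧ (∀ w : Fin 45, adjH w u = true → w = parF u) := by
  decide +kernel

theorem GG_zero (σ : Fin 45 → Fin 45) (u : Fin 45) (h0 : u ≠ 0) (h4 : u.val ≤ 4) :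
    ∃ c : ℝ, c ≤ 0.4705 ∧ GG σ 0 = cc (σ 0) (σ u) (σ (ptF u)) + c := by
  have h : u = 1 ∨ u = 2 ∨ u = 3 ∨ u = 4 := by omega
  have e : GG σ 0 = cc (σ 0) (σ 1) (σ 2) + cc (σ 0) (σ 3) (σ 4) := if_pos rfl
  rcases h with rfl | rfl | rfl | rfl
  · exact ⟨_, (cc_bd _ _ _).2, e⟩
  · exact ⟨_, (cc_bd (σ 0) (σ 3) (σ 4)).2, by rw [e, cc_comm]; rfl⟩
  · exact ⟨_, (cc_bd (σ 0) (σ 1) (σ 2)).2, by rw [e, add_comm]; rfl⟩
  · exact ⟨_, (cc_bd (σ 0) (σ 1) (σ 2)).2, by rw [e, add_comm, cc_comm]; rfl⟩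

theorem GG_sum (r : ℝ) (hr0 : 0 ≤ r) (hr : r ≤ 0.0626) (σ : Fin 45 → Fin 45)
    (hσ : Function.Injective σ) (u : Fin 45)
    (hu : σ u = 0 ∨ ∃ w : Fin 45, σ w < σ u ∧ adjH w u = true) :
    ∑ w : Fin 45, (if σ u < σ w ∧ adjH u w = true then r / (1 - GG σ w) else 0) ≤ GG σ u := by
  have e : ∑ w : Fin 45, (if σ u < σ w ∧ adjH u w = true then r / (1 - GG σ w) else 0)
      = ∑ w ∈ Finset.univ.filter (fun w : Fin 45 => adjH u w = true),
        (if σ u < σ w then r / (1 - GG σ w) else 0) := by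
    rw [Finset.sum_filter]
    apply Finset.sum_congr rfl
    intro w _
    by_cases a : adjH u w = true <;> simp [a]
  rw [e]
  by_cases h0 : u = 0
  · subst h0
    rw [nb0, Finset.sum_insert (by decide), Finset.sum_insert (by decide),
      Finset.sum_pair (by decide)]
    have t1 := tri1 r hr (σ 0) (σ 1) (σ 2) (fun h => absurd (hσ h) (by decide))
    have t2 := tri1 r hr (σ 0) (σ 3) (σ 4) (fun h => absurd (hσ h) (by decide))
    have g0 : GG σ 0 = cc (σ 0) (σ 1) (σ 2) + cc (σ 0) (σ 3) (σ 4) := if_pos rfl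
    have g1 : GG σ 1 = O (σ 0) (σ 1) (σ 2) := rfl
    have g2 : GG σ 2 = O (σ 0) (σ 2) (σ 1) := rfl
    have g3 : GG σ 3 = O (σ 0) (σ 3) (σ 4) := rfl
    have g4 : GG σ 4 = O (σ 0) (σ 4) (σ 3) := rfl
    rw [g0, g1, g2, g3, g4]
    linarith
  by_cases h4 : u.val ≤ 4
  · obtain ⟨n1, n2, n3, n4, n5, n6, n7, n8, n9⟩ := nb1 u h0 h4
    obtain ⟨c, hc, ec⟩ := GG_zero σ u h0 h4
    have gu : GG σ u = O (σ 0) (σ u) (σ (ptF u)) := by
      unfold GG; rw [if_neg h0, if_pos h4]
    have gp : GG σ (ptF u) = O (σ 0) (σ (ptF u)) (σ u) := by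
      unfold GG; rw [if_neg n5, if_pos n6, n7]
    rw [n1, Finset.sum_insert n2, Finset.sum_insert n3, ec, gu, gp]
    have hl : ∀ w ∈ Lv u, (if σ u < σ w then r / (1 - GG σ w) else 0) ≤ r := by
      intro w hw
      have h5 := (Finset.mem_filter.mp hw).2.1
      split_ifs with a
      · have : GG σ w = 0 := by
          unfold GG
          rw [if_neg (by omega), if_neg (by omega), if_neg (by omega)]
        rw [this]; simp
      · exact hr0
    apply tri2 r hr _ _ _ (fun h => n8 (hσ h)) (fun h => h0 (hσ h).symm)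
      (fun h => n5 (hσ h).symm) c _ hc
    · have := Finset.sum_le_card_nsmul _ _ _ hl
      rw [n4, nsmul_eq_mul] at this
      exact_mod_cast this
    · intro a1 a2 a3
      obtain ⟨w, b1, b2⟩ := hu.resolve_left a1
      have hw : w ∈ Lv u := by
        rcases n9 w b2 with rfl | rfl | h
        · exact absurd b1 (not_lt.mpr a2.le)
        · exact absurd b1 (not_lt.mpr a3.le)
        · exact h
      rw [← Finset.add_sum_erase _ _ hw, if_neg (not_lt.mpr b1.le), zero_add]
      have := Finset.sum_le_card_nsmul ((Lv u).erase w) _ _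
        (fun y hy => hl y (Finset.mem_of_mem_erase hy))
      rw [Finset.card_erase_of_mem hw, n4, nsmul_eq_mul] at this
      exact_mod_cast this
  · obtain ⟨n1, n2, n3, n4⟩ := nb2 u h4
    rw [n1, Finset.sum_singleton]
    have gu : GG σ u = if σ u = 0 then 1 else 0 := by
      unfold GG; rw [if_neg h0, if_neg h4]
    have gp : GG σ (parF u) = O (σ 0) (σ (parF u)) (σ (ptF (parF u))) := by
      unfold GG; rw [if_neg n2, if_pos n3]
    rw [gu, gp]
    by_cases a : σ u < σ (parF u)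
    · rcases hu with b | ⟨w, b1, b2⟩
      · rw [if_pos a, if_pos b]
        have := O_bd (σ 0) (σ (parF u)) (σ (ptF (parF u))) (by omega)
        exact dv r _ 1 hr (by linarith) (by linarith)
      · rw [n4 w b2] at b1
        exact absurd a (not_lt.mpr b1.le)
    · rw [if_neg a]
      split_ifs <;> norm_num

theorem beta_H (f : Equiv.Perm (Fin (43+2))) :
    1 - ((sSup {q : ℝ | ∃ x : Finset (Fin (43+2)) → ℝ,
      (∑ S ∈ PP (fun a b => H.Adj (f a) (f b)), x S ^ 2) = 1 ∧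
      q = ∑ S ∈ PP (fun a b => H.Adj (f a) (f b)), ∑ T ∈ PP (fun a b => H.Adj (f a) (f b)),
        (if (C S T ∨ C T S) then x S * x T else 0)}) ^ 2)⁻¹
      ≤ 1 - ((3999 / 1000 : ℝ) ^ 2)⁻¹ := by
  have hn : ∀ u : Fin 45, ∃ w : Fin 45, adjH u w = true := by decide +kernel
  obtain ⟨w, hw⟩ := hn (f 0)
  apply beta_le (fun a b => H.Adj (f a) (f b)) (3999 / 1000) (by norm_num)
    (fun a => GG f.symm (f a)) ?_ (GG_le _ _) ?_ (f.symm w)
  · intro e
    have : w = f 0 := by rw [← e]; simp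
    rw [this] at hw
    exact adjH_irr _ hw
  · show adjH (f 0) (f (f.symm w)) = true
    rw [Equiv.apply_symm_apply]; exact hw
  · intro b hb
    apply GG_lt
    rw [Equiv.symm_apply_apply]; exact hb
  · intro a ha
    have := GG_sum (((3999 / 1000 : ℝ) ^ 2)⁻¹) (by positivity) (by norm_num) f.symm
      f.symm.injective (f a) (by
        rw [Equiv.symm_apply_apply]
        rcases ha with h | ⟨c, h1, h2⟩
        · exact Or.inl h
        · exact Or.inr ⟨f c, by rw [Equiv.symm_apply_apply]; exact h1, h2⟩)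
    rw [← Equiv.sum_comp f] at this
    simp only [Equiv.symm_apply_apply] at this
    refine le_trans (le_of_eq ?_) this
    apply Finset.sum_congr rfl
    intro b _
    congr

end Pool.Agent.H.MP_640286_co
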